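import Pool.Agent.Y655.ISO.Glue

/-!
# Project ISO: the Selmer groups of the 2-isogenies by explicit local conditions
-/

set_option autoImplicit false
set_option linter.unusedSectionVars false

namespace Pool.Agent.Y655.ISO

open Finset Pool.Agent.W262.RK Pool.Agent.W307.RT Pool.Agent.W307.RS Pool.Agent.W307.SE
  Pool.Agent.W307.FK Pool.Agent.W214.RK2 Pool.Agent.Y667.RP Pool.Agent.Y667.RZ
  Pool.Agent.Y667.ISO
open Pool.Agent.Y535.RZ (Dat cop_nd nsq dvd_D nsq_D jac_tw ll17 loch17 pt_real pt_two pt17)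
open Pool.Agent.W405.SE (even_val not_dvd goodp_of)

section loc

lemma locLR' {a b : ℤ} (c : Fin 3) (κ : ℤ) (p : ℕ) [hp : Fact p.Prime] (hp2 : p ≠ 2)
    (hκ : ¬ (p : ℤ) ∣ κ) (hL : LocH c.castSucc (fun _ => κ) false p a b) {d1 d2 : ℤ}
    (h1 : Squarefree d1) (h2 : Squarefree d2) (hd : Loc ℚ_[p] a b d1 d2) :
    LR c (sg0 p κ) (dv p d1) (dv p d2) (sgn p d1) (sgn p d2) := by
  obtain ⟨x, y, hy, hxy, s1, s2⟩ := hd
  have h := loclp_of Pool.Agent.W407.SE.ratp c.castSucc (fun _ => κ) false p a b hp2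
    (fun _ => hκ) hL x y hy hxy d1 d2 h1 h2 s1 s2
  unfold LL at h
  unfold LR
  fin_cases c
  · simpa using h
  · simpa using h
  · simpa using h

variable {s : Fin 3 → ℕ} {D : ℕ}

lemma lf' (h : Dat s D) {p : ℕ} [hp : Fact p.Prime] {d1 d2 : ℤ} (q1 : Squarefree d1)
    (q2 : Squarefree d2) (hd : Loc ℚ_[p] ((D : ℤ) * s 0) ((D : ℤ) * s 1) d1 d2) (E : Finset ℕ)
    (hE0 : p ∣ s 0 → (p ∈ E ↔ jacobiSym (-((D : ℤ) * s 1)) p = -1))
    (hE1 : p ∣ s 1 → (p ∈ E ↔ jacobiSym (-((D : ℤ) * s 0)) p = -1))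
    (hE2 : p ∣ s 2 → (p ∈ E ↔ jacobiSym ((D : ℤ) * s 0) p = -1)) :
    LF s E p (dv p d1) (dv p d2) (sgn p d1) (sgn p d2) := by
  have hpp := hp.out
  intro j hj
  have hj3 : j = 0 ∨ j = 1 ∨ j = 2 := by fin_cases j <;> simp
  rcases hj3 with rfl | rfl | rfl
  · have hD := h.hD hpp hj
    have h1 : ¬ p ∣ s 1 := cop_nd hpp h.cop01 hj
    have h2 : ¬ (p : ℤ) ∣ -((D : ℤ) * s 1) := by rw [dvd_neg, dvd_D hpp hD]; exact h1
    have hdec : decide (p ∈ E) = sg0 p (-((D : ℤ) * s 1)) := by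
      unfold sg0
      rw [decide_eq_decide]
      exact hE0 hj
    rw [hdec]
    refine locLR' 0 _ p (h.ne2 hj) h2 ?_ q1 q2 hd
    unfold LocH
    rw [if_pos (by rfl)]
    exact ⟨(dvd_D hpp hD).2 hj, nsq_D hpp hD (h.sqj 0), fun h => h1 ((dvd_D hpp hD).1 h),
      jac_self hpp h2⟩
  · have hD := h.hD hpp hj
    have h1 : ¬ p ∣ s 0 := cop_nd hpp h.cop01.symm hj
    have h2 : ¬ (p : ℤ) ∣ -((D : ℤ) * s 0) := by rw [dvd_neg, dvd_D hpp hD]; exact h1
    have hdec : decide (p ∈ E) = sg0 p (-((D : ℤ) * s 0)) := by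
      unfold sg0
      rw [decide_eq_decide]
      exact hE1 hj
    rw [hdec]
    refine locLR' 1 _ p (h.ne2 hj) h2 ?_ q1 q2 hd
    unfold LocH
    rw [if_neg (by decide), if_pos (by rfl)]
    exact ⟨(dvd_D hpp hD).2 hj, nsq_D hpp hD (h.sqj 1), fun h => h1 ((dvd_D hpp hD).1 h),
      jac_self hpp h2⟩
  · have hD := h.hD hpp hj
    have hp2 := h.ne2 hj
    have h1 : ¬ p ∣ s 0 := fun h' => cop_nd hpp h.cop012.symm hj (h'.mul_right _)
    have h2 : ¬ (p : ℤ) ∣ (D : ℤ) * s 0 := by rw [dvd_D hpp hD]; exact h1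
    have hdec : decide (p ∈ E) = sg0 p ((D : ℤ) * s 0) := by
      unfold sg0
      rw [decide_eq_decide]
      exact hE2 hj
    rw [hdec]
    refine locLR' 2 _ p hp2 h2 ?_ q1 q2 hd
    unfold LocH
    rw [if_neg (by decide), if_neg (by decide), if_pos (by rfl)]
    refine ⟨(h.dvdC hpp hp2 hD).2 hj, ?_, h2, jac_self hpp h2⟩
    intro h'
    rw [h.dif'] at h'
    have h3 : p ^ 2 ∣ 32 * (D * s 2) := by exact_mod_cast h'
    have h4 : (p ^ 2).Coprime 32 := by
      have : p.Coprime 2 := (Nat.coprime_primes hpp Nat.prime_two).2 hp2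
      have h5 : (p ^ 2).Coprime (2 ^ 5) := Nat.Coprime.pow 2 5 this
      exact h5
    have h5 : (p ^ 2).Coprime D :=
      Nat.Coprime.pow_left 2 ((Nat.Prime.coprime_iff_not_dvd hpp).2 hD)
    exact nsq hpp (h.sqj 2) (h5.dvd_of_dvd_mul_left (h4.dvd_of_dvd_mul_left h3))

/-- the real place -/
lemma real_iff {a b : ℤ} (hb : 0 < b) (hba : b < a) {c t : ℤ} (hc : Squarefree c)
    (ht : Squarefree t) : Loc ℝ a b c t ↔ 0 < c := by
  constructor
  · rintro ⟨x, y, hy, hxy, ⟨r, hr⟩, -⟩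
    have hx : 0 < x := by
      by_contra hcon
      push Not at hcon
      have hy2 : 0 < y ^ 2 := by positivity
      rw [hxy] at hy2
      have hb' : (0 : ℝ) < b := by exact_mod_cast hb
      have ha' : (b : ℝ) < a := by exact_mod_cast hba
      have h3 : 0 ≤ (x - a) * (x - b) := mul_nonneg_of_nonpos_of_nonpos (by linarith) (by linarith)
      have h4 : x * ((x - a) * (x - b)) ≤ 0 := mul_nonpos_of_nonpos_of_nonneg hcon h3
      linarith [h4, hy2, mul_assoc x (x - a) (x - b)]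
    have h0 : 0 ≤ x * (c : ℝ) := by rw [hr]; exact mul_self_nonneg r
    have h3 : (0 : ℝ) ≤ c := by
      by_contra hcon
      push Not at hcon
      linarith [mul_neg_of_pos_of_neg hx hcon]
    have h4 : (0 : ℤ) ≤ c := by exact_mod_cast h3
    exact lt_of_le_of_ne h4 hc.ne_zero.symm
  · intro h
    exact pt_real hb hba h ht.ne_zero

/-- the place `2` -/
lemma two_iff [Fact (Nat.Prime 2)] {A B C : ℤ} (hA : A % 8 = 1) (hB : B % 8 = 1)
    (hC : A - B = 32 * C) (hCo : C % 2 = 1) {c t : ℤ} (hc : Squarefree c) (ht : Squarefree t) :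
    Loc ℚ_[2] A B c t ↔ c % 8 = 1 := by
  constructor
  · rintro ⟨x, y, hy, hxy, hs1, hs2⟩
    have hx := two_sq hA (by rw [hC]; exact dvd_mul_right _ _) hy hxy
    have hx0 : x ≠ 0 := (onc hy hxy).1
    have hd : IsSquare ((c : ℤ) : ℚ_[2]) := by
      have h5 : ((c : ℤ) : ℚ_[2]) = x * c / x := by
        field_simp
      rw [h5]
      exact hs1.div hx
    refine mod_of_sq ?_ hd
    have hd0 : ((c : ℤ) : ℚ_[2]) ≠ 0 := by exact_mod_cast hc.ne_zero
    have := not_dvd (p := 2) hc (by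
      have h6 := even_val (p := 2) (a := ((c : ℤ) : ℚ_[2])) (b := 1) hd0 one_ne_zero
        (by rw [mul_one]; exact hd)
      simpa using h6)
    exact_mod_cast this
  · intro h
    exact pt_two hA hB hC hCo h ht

/-- the good places -/
lemma good_iff {p : ℕ} [hp : Fact p.Prime] {a b c t : ℤ} (h : ¬ (p : ℤ) ∣ 2 * a * b * (a - b))
    (hc : Squarefree c) (ht : Squarefree t) :
    Loc ℚ_[p] a b c t ↔ dv p c = false ∧ dv p t = false := by
  unfold dv
  rw [decide_eq_false_iff_not, decide_eq_false_iff_not]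
  constructor
  · intro hL
    exact goodp_of Pool.Agent.W407.SE.ratp p a b c t h hc ht hL
  · rintro ⟨h1, h2⟩
    exact Pool.Agent.Y105.RZ.GOODS p a b c t h h1 h2

end loc

/-- squarefree integers with prime factors among those of another one -/
lemma sqf_dvd {r β : ℤ} (hr : Squarefree r) (h : ∀ q : ℕ, q.Prime → (q : ℤ) ∣ r → (q : ℤ) ∣ β) :
    r ∣ β := by
  rw [← Int.natAbs_dvd_natAbs, ← Nat.prod_primeFactors_of_squarefree (Int.squarefree_natAbs.2 hr)]
  refine Finset.prod_primes_dvd _ (fun q hq => (Nat.prime_of_mem_primeFactors hq).prime)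
    fun q hq => ?_
  have h1 := h q (Nat.prime_of_mem_primeFactors hq)
    (Int.natCast_dvd.2 (Nat.dvd_of_mem_primeFactors hq))
  exact Int.natCast_dvd.1 h1

/-- the full local conditions -/
def Lf (M : ℕ) (L : ℕ → Bool → Bool → Bool → Bool → Prop) (p : ℕ) (v w h g : Bool) : Prop :=
  (p ∣ M → L p v w h g) ∧ (¬ p ∣ M → v = false ∧ w = false)

/-- what is needed about the curve -/
structure CD (a b : ℤ) (M : ℕ) (L : ℕ → Bool → Bool → Bool → Bool → Prop) : Prop where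
  a0 : a ≠ 0
  b0 : b ≠ 0
  ab : a ≠ b
  M0 : M ≠ 0
  o2 : ¬ 2 ∣ M
  e2 : (2 : ℤ) ∣ a - b
  real : ∀ c t : ℤ, Squarefree c → Squarefree t → (Loc ℝ a b c t ↔ 0 < c)
  two : ∀ [Fact (Nat.Prime 2)] (c t : ℤ), Squarefree c → Squarefree t →
    (Loc ℚ_[2] a b c t ↔ c % 8 = 1)
  odd : ∀ (p : ℕ) [Fact p.Prime], p ≠ 2 → ∀ c t : ℤ, Squarefree c → Squarefree t →
    (Loc ℚ_[p] a b c t ↔ Lf M L p (dv p c) (dv p t) (sgn p c) (sgn p t))
  key : ∀ q : ℕ, q.Prime → q ∣ M → ((q : ℤ) ∣ a ∧ (q : ℤ) ∣ b) ∨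
    ((q : ℤ) ∣ a ∧ ∀ v w h g, L q v w h g → v = w) ∨
    ((q : ℤ) ∣ b ∧ ∀ v w h g, L q v w h g → w = false) ∨
    ((q : ℤ) ∣ a - b ∧ ∀ v w h g, L q v w h g → v = false)

/-- the general comparison of the sets -/
lemma set_eq {M : ℕ} (hM : M ≠ 0) (o2 : ¬ 2 ∣ M) {α β : ℤ} {P : ℕ → Bool → Bool → Prop}
    {TR T2 : ℤ → Prop}
    (hR : ∀ r : ℤ, Squarefree r → r ∣ β → (Qt ℝ r α β ↔ TR r))
    (h2 : ∀ [Fact (Nat.Prime 2)] (r : ℤ), Squarefree r → r ∣ β → (Qt ℚ_[2] r α β ↔ T2 r))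
    (ho : ∀ (p : ℕ) [Fact p.Prime], p ≠ 2 → ∀ r : ℤ, Squarefree r → r ∣ β →
      (Qt ℚ_[p] r α β ↔ (p ∣ M → P p (dv p r) (sgn p r)) ∧ (¬ p ∣ M → dv p r = false)))
    (hβ : ∀ r : ℤ, Squarefree r → T2 r → ∀ q : ℕ, q.Prime → (q : ℤ) ∣ r → q ∣ 2 * M →
      (∀ q : ℕ, q.Prime → q ∣ M → P q (dv q r) (sgn q r)) → (q : ℤ) ∣ β) :
    F1 α β = {r | r ∈ GA M P ∧ TR r ∧ T2 r} := by
  have hp2 : Fact (Nat.Prime 2) := ⟨Nat.prime_two⟩
  ext r
  constructor
  · rintro ⟨hr, hd, k1, k2⟩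
    refine ⟨⟨hr, fun q hq hqr => ?_, fun p hp => ?_⟩, (hR r hr hd).1 k1, (h2 r hr hd).1 (k2 2)⟩
    · by_cases hq2 : q = 2
      · rw [hq2]; exact dvd_mul_right _ _
      · have : Fact q.Prime := ⟨hq⟩
        have h3 := (ho q hq2 r hr hd).1 (k2 q)
        by_contra hcon
        have h4 := h3.2 (fun h' => hcon (h'.mul_left _))
        unfold dv at h4
        rw [decide_eq_false_iff_not] at h4
        exact h4 hqr
    · have hpp := Nat.prime_of_mem_primeFactors hp
      have : Fact p.Prime := ⟨hpp⟩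
      have hpM := Nat.dvd_of_mem_primeFactors hp
      exact ((ho p (by rintro rfl; exact o2 hpM) r hr hd).1 (k2 p)).1 hpM
  · rintro ⟨⟨hr, k1, k2⟩, k3, k4⟩
    have k2' : ∀ q : ℕ, q.Prime → q ∣ M → P q (dv q r) (sgn q r) := fun q hq hqM =>
      k2 q (Nat.mem_primeFactors.2 ⟨hq, hqM, hM⟩)
    have hd : r ∣ β := sqf_dvd hr fun q hq hqr => hβ r hr k4 q hq hqr (k1 q hq hqr) k2'
    refine ⟨hr, hd, (hR r hr hd).2 k3, fun p hp => ?_⟩
    by_cases hp2' : p = 2
    · subst hp2'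
      exact (h2 r hr hd).2 k4
    · refine (ho p hp2' r hr hd).2 ⟨fun hpM => k2' p hp.out hpM, fun hpM => ?_⟩
      unfold dv
      rw [decide_eq_false_iff_not]
      intro hpr
      rcases hp.out.dvd_mul.1 (k1 p hp.out hpr) with h' | h'
      · exact hp2' ((Nat.prime_dvd_prime_iff_eq hp.out Nat.prime_two).1 h')
      · exact hpM h'

section six

variable {a b : ℤ} {M : ℕ} {L : ℕ → Bool → Bool → Bool → Bool → Prop} (h : CD a b M L)

include h

lemma CD.sp_real {r : ℤ} (hr : Squarefree r) : (E0 ℝ a b r ↔ 0 < r) ∧ I0 ℝ a b r ∧ E1 ℝ a b r ∧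
    (I1 ℝ a b r ↔ 0 < r) ∧ E2 ℝ a b r ∧ (I2 ℝ a b r ↔ 0 < r) :=
  spec_all (K := ℝ) (a := a) (b := b) (T := fun c => 0 < c) hr repReal one_pos h.real

lemma CD.sp_two [Fact (Nat.Prime 2)] {r : ℤ} (hr : Squarefree r) :
    (E0 ℚ_[2] a b r ↔ r % 8 = 1) ∧ I0 ℚ_[2] a b r ∧ E1 ℚ_[2] a b r ∧
    (I1 ℚ_[2] a b r ↔ r % 8 = 1) ∧ E2 ℚ_[2] a b r ∧ (I2 ℚ_[2] a b r ↔ r % 8 = 1) :=
  spec_all (K := ℚ_[2]) (a := a) (b := b) (T := fun c => c % 8 = 1) hr repPad (by norm_num)
    (fun c t hc ht => h.two c t hc ht)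

lemma CD.sp_odd {p : ℕ} [Fact p.Prime] (hp2 : p ≠ 2) {r : ℤ} (hr : Squarefree r) :
    (E0 ℚ_[p] a b r ↔ ∃ w g, Lf M L p (dv p r) w (sgn p r) g) ∧
    (I0 ℚ_[p] a b r ↔ Lf M L p false (dv p r) false (sgn p r)) ∧
    (E1 ℚ_[p] a b r ↔ ∃ v h, Lf M L p v (dv p r) h (sgn p r)) ∧
    (I1 ℚ_[p] a b r ↔ Lf M L p (dv p r) false (sgn p r) false) ∧
    (E2 ℚ_[p] a b r ↔ ∃ v w h g, Lf M L p v w h g ∧ dv p r = xor v w ∧ sgn p r = xor h g) ∧
    (I2 ℚ_[p] a b r ↔ Lf M L p (dv p r) (dv p r) (sgn p r) (sgn p r)) :=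
  odd_all (p := p) (a := a) (b := b) (L := Lf M L p) hp2 hr (h.odd p hp2)

omit h in
lemma dvt {q : ℕ} {r : ℤ} (h : (q : ℤ) ∣ r) : dv q r = true := by
  unfold dv
  exact decide_eq_true h

omit h in
lemma nd8 {r : ℤ} {q : ℕ} (h8 : r % 8 = 1) (hq : (q : ℤ) ∣ r) : q ≠ 2 := by
  rintro rfl
  have : (2 : ℤ) ∣ r := by exact_mod_cast hq
  omega

omit h in
lemma dvd2M {q : ℕ} (hq : q.Prime) (h : q ∣ 2 * M) : q = 2 ∨ q ∣ M := by
  rcases hq.dvd_mul.1 h with h' | h'
  · exact Or.inl ((Nat.prime_dvd_prime_iff_eq hq Nat.prime_two).1 h')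
  · exact Or.inr h'

lemma CD.s0 : F1 (-(a + b)) (a * b) = GB M (pr0 L) := by
  refine set_eq h.M0 h.o2 (TR := fun r => 0 < r) (T2 := fun r => r % 8 = 1) ?_ ?_ ?_ ?_
  · intro r hr hd
    rw [q0 sqReal h.a0 h.b0 h.ab hr.ne_zero hd]
    exact (h.sp_real hr).1
  · intro _ r hr hd
    rw [q0 sqPad h.a0 h.b0 h.ab hr.ne_zero hd]
    exact (h.sp_two hr).1
  · intro p _ hp2 r hr hd
    rw [q0 sqPad h.a0 h.b0 h.ab hr.ne_zero hd, (h.sp_odd hp2 hr).1]
    constructor
    · rintro ⟨w, g, k1, k2⟩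
      exact ⟨fun h' => ⟨w, g, k1 h'⟩, fun h' => (k2 h').1⟩
    · rintro ⟨k1, k2⟩
      by_cases h' : p ∣ M
      · obtain ⟨w, g, k⟩ := k1 h'
        exact ⟨w, g, fun _ => k, fun h'' => absurd h' h''⟩
      · exact ⟨false, false, fun h'' => absurd h'' h', fun _ => ⟨k2 h', rfl⟩⟩
  · intro r hr h8 q hq hqr hqM hP
    rcases dvd2M hq hqM with h' | h'
    · exact absurd h' (nd8 h8 hqr)
    · obtain ⟨w, g, k⟩ := hP q hq h'
      rw [dvt hqr] at k
      rcases h.key q hq h' with k' | k' | k' | k'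
      · exact k'.1.mul_right _
      · exact k'.1.mul_right _
      · exact k'.1.mul_left _
      · exact absurd (k'.2 _ _ _ _ k) (by decide)

lemma CD.t0 : F1 (2 * (a + b)) ((a - b) ^ 2) = GA M (in0 L) := by
  rw [set_eq h.M0 h.o2 (P := in0 L) (TR := fun r => True) (T2 := fun r => True) ?_ ?_ ?_ ?_]
  · simp
  · intro r hr hd
    rw [qI0 sqReal h.a0 h.b0 h.ab hr.ne_zero hd]
    exact iff_of_true (h.sp_real hr).2.1 trivial
  · intro _ r hr hd
    rw [qI0 sqPad h.a0 h.b0 h.ab hr.ne_zero hd]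
    exact iff_of_true (h.sp_two hr).2.1 trivial
  · intro p _ hp2 r hr hd
    rw [qI0 sqPad h.a0 h.b0 h.ab hr.ne_zero hd, (h.sp_odd hp2 hr).2.1]
    unfold Lf in0
    constructor
    · rintro ⟨k1, k2⟩
      exact ⟨k1, fun h' => (k2 h').2⟩
    · rintro ⟨k1, k2⟩
      exact ⟨k1, fun h' => ⟨rfl, k2 h'⟩⟩
  · intro r hr h8 q hq hqr hqM hP
    rcases dvd2M hq hqM with h' | h'
    · rw [h']
      exact h.e2.trans (dvd_pow_self _ two_ne_zero)
    · have k := hP q hq h'
      unfold in0 at k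
      rw [dvt hqr] at k
      rcases h.key q hq h' with k' | k' | k' | k'
      · exact (dvd_sub k'.1 k'.2).trans (dvd_pow_self _ two_ne_zero)
      · exact absurd (k'.2 _ _ _ _ k) (by decide)
      · exact absurd (k'.2 _ _ _ _ k) (by decide)
      · exact k'.1.trans (dvd_pow_self _ two_ne_zero)

lemma CD.s1 : F1 (2 * a - b) (a * (a - b)) = GA M (pr1 L) := by
  rw [set_eq h.M0 h.o2 (P := pr1 L) (TR := fun r => True) (T2 := fun r => True) ?_ ?_ ?_ ?_]
  · simp
  · intro r hr hd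
    rw [q1 sqReal h.a0 h.b0 h.ab hr.ne_zero hd]
    exact iff_of_true (h.sp_real hr).2.2.1 trivial
  · intro _ r hr hd
    rw [q1 sqPad h.a0 h.b0 h.ab hr.ne_zero hd]
    exact iff_of_true (h.sp_two hr).2.2.1 trivial
  · intro p _ hp2 r hr hd
    rw [q1 sqPad h.a0 h.b0 h.ab hr.ne_zero hd, (h.sp_odd hp2 hr).2.2.1]
    constructor
    · rintro ⟨w, g, k1, k2⟩
      exact ⟨fun h' => ⟨w, g, k1 h'⟩, fun h' => (k2 h').2⟩
    · rintro ⟨k1, k2⟩
      by_cases h' : p ∣ M
      · obtain ⟨w, g, k⟩ := k1 h'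
        exact ⟨w, g, fun _ => k, fun h'' => absurd h' h''⟩
      · exact ⟨false, false, fun h'' => absurd h'' h', fun _ => ⟨rfl, k2 h'⟩⟩
  · intro r hr h8 q hq hqr hqM hP
    rcases dvd2M hq hqM with h' | h'
    · rw [h']
      exact h.e2.mul_left _
    · obtain ⟨v, g, k⟩ := hP q hq h'
      rw [dvt hqr] at k
      rcases h.key q hq h' with k' | k' | k' | k'
      · exact k'.1.mul_right _
      · exact k'.1.mul_right _
      · exact absurd (k'.2 _ _ _ _ k) (by decide)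
      · exact k'.1.mul_left _

lemma CD.t1 : F1 (-2 * (2 * a - b)) (b ^ 2) = GB M (in1 L) := by
  refine set_eq h.M0 h.o2 (TR := fun r => 0 < r) (T2 := fun r => r % 8 = 1) ?_ ?_ ?_ ?_
  · intro r hr hd
    rw [qI1 sqReal h.a0 h.b0 h.ab hr.ne_zero hd]
    exact (h.sp_real hr).2.2.2.1
  · intro _ r hr hd
    rw [qI1 sqPad h.a0 h.b0 h.ab hr.ne_zero hd]
    exact (h.sp_two hr).2.2.2.1
  · intro p _ hp2 r hr hd
    rw [qI1 sqPad h.a0 h.b0 h.ab hr.ne_zero hd, (h.sp_odd hp2 hr).2.2.2.1]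
    unfold Lf in1
    constructor
    · rintro ⟨k1, k2⟩
      exact ⟨k1, fun h' => (k2 h').1⟩
    · rintro ⟨k1, k2⟩
      exact ⟨k1, fun h' => ⟨k2 h', rfl⟩⟩
  · intro r hr h8 q hq hqr hqM hP
    rcases dvd2M hq hqM with h' | h'
    · exact absurd h' (nd8 h8 hqr)
    · have k := hP q hq h'
      unfold in1 at k
      rw [dvt hqr] at k
      rcases h.key q hq h' with k' | k' | k' | k'
      · exact k'.2.trans (dvd_pow_self _ two_ne_zero)
      · exact absurd (k'.2 _ _ _ _ k) (by decide)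
      · exact k'.1.trans (dvd_pow_self _ two_ne_zero)
      · exact absurd (k'.2 _ _ _ _ k) (by decide)

lemma CD.s2 : F1 (2 * b - a) (b * (b - a)) = GA M (pr2 L) := by
  rw [set_eq h.M0 h.o2 (P := pr2 L) (TR := fun r => True) (T2 := fun r => True) ?_ ?_ ?_ ?_]
  · simp
  · intro r hr hd
    rw [q2 sqReal h.a0 h.b0 h.ab hr.ne_zero hd]
    exact iff_of_true (h.sp_real hr).2.2.2.2.1 trivial
  · intro _ r hr hd
    rw [q2 sqPad h.a0 h.b0 h.ab hr.ne_zero hd]
    exact iff_of_true (h.sp_two hr).2.2.2.2.1 trivial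
  · intro p _ hp2 r hr hd
    rw [q2 sqPad h.a0 h.b0 h.ab hr.ne_zero hd, (h.sp_odd hp2 hr).2.2.2.2.1]
    constructor
    · rintro ⟨v, w, hh, g, ⟨k1, k2⟩, k3, k4⟩
      refine ⟨fun h' => ⟨v, w, hh, g, k1 h', k3, k4⟩, fun h' => ?_⟩
      rw [k3, (k2 h').1, (k2 h').2]
      rfl
    · rintro ⟨k1, k2⟩
      by_cases h' : p ∣ M
      · obtain ⟨v, w, hh, g, k, k3, k4⟩ := k1 h'
        exact ⟨v, w, hh, g, ⟨fun _ => k, fun h'' => absurd h' h''⟩, k3, k4⟩
      · exact ⟨false, false, sgn p r, false, ⟨fun h'' => absurd h'' h', fun _ => ⟨rfl, rfl⟩⟩,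
          by rw [k2 h']; rfl, by simp⟩
  · intro r hr h8 q hq hqr hqM hP
    rcases dvd2M hq hqM with h' | h'
    · rw [h']
      exact (dvd_sub_comm.1 h.e2).mul_left _
    · obtain ⟨v, w, hh, g, k, k3, k4⟩ := hP q hq h'
      rw [dvt hqr] at k3
      rcases h.key q hq h' with k' | k' | k' | k'
      · exact k'.2.mul_right _
      · exfalso
        rw [k'.2 _ _ _ _ k] at k3
        revert k3
        cases w <;> decide
      · exact k'.1.mul_right _
      · exact (dvd_sub_comm.1 k'.1).mul_left _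

lemma CD.t2 : F1 (-2 * (2 * b - a)) (a ^ 2) = GB M (in2 L) := by
  refine set_eq h.M0 h.o2 (TR := fun r => 0 < r) (T2 := fun r => r % 8 = 1) ?_ ?_ ?_ ?_
  · intro r hr hd
    rw [qI2 sqReal h.a0 h.b0 h.ab hr.ne_zero hd]
    exact (h.sp_real hr).2.2.2.2.2
  · intro _ r hr hd
    rw [qI2 sqPad h.a0 h.b0 h.ab hr.ne_zero hd]
    exact (h.sp_two hr).2.2.2.2.2
  · intro p _ hp2 r hr hd
    rw [qI2 sqPad h.a0 h.b0 h.ab hr.ne_zero hd, (h.sp_odd hp2 hr).2.2.2.2.2]
    unfold Lf in2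
    constructor
    · rintro ⟨k1, k2⟩
      exact ⟨k1, fun h' => (k2 h').1⟩
    · rintro ⟨k1, k2⟩
      exact ⟨k1, fun h' => ⟨k2 h', k2 h'⟩⟩
  · intro r hr h8 q hq hqr hqM hP
    rcases dvd2M hq hqM with h' | h'
    · exact absurd h' (nd8 h8 hqr)
    · have k := hP q hq h'
      unfold in2 at k
      rw [dvt hqr] at k
      rcases h.key q hq h' with k' | k' | k' | k'
      · exact k'.1.trans (dvd_pow_self _ two_ne_zero)
      · exact k'.1.trans (dvd_pow_self _ two_ne_zero)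
      · exact absurd (k'.2 _ _ _ _ k) (by decide)
      · exact absurd (k'.2 _ _ _ _ k) (by decide)

end six

/-- the common part of the two cases -/
lemma cd_of {s : Fin 3 → ℕ} {D : ℕ} (h : Dat s D) (hD8 : D % 8 = 1) (h0 : s 0 % 8 = 1)
    (h1 : s 1 % 8 = 1) {L : ℕ → Bool → Bool → Bool → Bool → Prop}
    (hL : ∀ (p : ℕ) [Fact p.Prime], p ∣ D * ∏ j, s j → ∀ c t : ℤ, Squarefree c → Squarefree t →
      (Loc ℚ_[p] ((D : ℤ) * s 0) ((D : ℤ) * s 1) c t ↔
        L p (dv p c) (dv p t) (sgn p c) (sgn p t)))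
    (hk : ∀ q : ℕ, q.Prime → q ∣ ∏ j, s j → ∃ E : Finset ℕ, ∀ v w x y, L q v w x y →
      LF s E q v w x y) :
    CD ((D : ℤ) * s 0) ((D : ℤ) * s 1) (D * ∏ j, s j) L := by
  have hD0 : (0 : ℤ) < D := by exact_mod_cast h.D0
  have hA : (0 : ℤ) < (D : ℤ) * s 0 := by
    have := h.pos 0
    positivity
  have hB : (0 : ℤ) < (D : ℤ) * s 1 := by
    have := h.pos 1
    positivity
  have hC0 : (0 : ℤ) < (D : ℤ) * s 2 := by
    have := h.pos 2
    positivity
  have hBA : (D : ℤ) * s 1 < (D : ℤ) * s 0 := by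
    have := h.dif'
    linarith
  have hDo : ¬ 2 ∣ D := by omega
  have hMo : ¬ 2 ∣ D * ∏ j, s j := by
    intro h'
    rcases Nat.prime_two.dvd_mul.1 h' with h'' | h''
    · exact hDo h''
    · exact (Nat.not_even_iff_odd.2 h.odd) (even_iff_two_dvd.2 h'')
  have m8 : ∀ x : ℕ, x % 8 = 1 → ((D : ℤ) * (x : ℤ)) % 8 = 1 := by
    intro x hx
    have : (D * x) % 8 = 1 := by rw [Nat.mul_mod, hD8, hx]
    have h2 : ((D * x : ℕ) : ℤ) % 8 = 1 := by omega
    rw [← h2]
    push_cast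
    rfl
  have hodd : ((D : ℤ) * (s 2 : ℤ)) % 2 = 1 := by
    have h2 : ¬ 2 ∣ D * s 2 := by
      intro h'
      rcases Nat.prime_two.dvd_mul.1 h' with h' | h'
      · exact hMo (h'.mul_right _)
      · exact hMo ((h'.trans (h.sj_dvd 2)).mul_left _)
    have h3 : (D * s 2) % 2 = 1 := by omega
    have h4 : ((D * s 2 : ℕ) : ℤ) % 2 = 1 := by omega
    rw [← h4]
    push_cast
    rfl
  refine ⟨hA.ne', hB.ne', hBA.ne', Nat.mul_ne_zero h.D0.ne' h.sq.ne_zero, hMo, ?_, ?_, ?_, ?_, ?_⟩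
  · rw [h.dif']
    exact ⟨16 * ((D : ℤ) * s 2), by ring⟩
  · intro c t hc ht
    exact real_iff hB hBA hc ht
  · intro _ c t hc ht
    exact two_iff (m8 _ h0) (m8 _ h1) h.dif' hodd hc ht
  · intro p hp hp2 c t hc ht
    have hpp := hp.out
    unfold Lf
    by_cases hpM : p ∣ D * ∏ j, s j
    · rw [hL p hpM c t hc ht]
      exact ⟨fun k => ⟨fun _ => k, fun h' => absurd hpM h'⟩, fun k => k.1 hpM⟩
    · have hD : ¬ p ∣ D := fun h' => hpM (h'.mul_right _)
      have hj : ∀ j, ¬ p ∣ s j := fun j h' => hpM ((h'.trans (h.sj_dvd j)).mul_left _)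
      have hqi := Nat.prime_iff_prime_int.1 hpp
      rw [good_iff ?_ hc ht]
      · exact ⟨fun k => ⟨fun h' => absurd h' hpM, fun _ => k⟩, fun k => k.2 hpM⟩
      · intro h'
        rcases hqi.dvd_or_dvd h' with h' | h'
        · rcases hqi.dvd_or_dvd h' with h' | h'
          · rcases hqi.dvd_or_dvd h' with h' | h'
            · have : p ∣ 2 := by exact_mod_cast h'
              exact hp2 ((Nat.prime_dvd_prime_iff_eq hpp Nat.prime_two).1 this)
            · exact hj 0 ((dvd_D hpp hD).1 h')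
          · exact hj 1 ((dvd_D hpp hD).1 h')
        · exact hj 2 ((h.dvdC hpp hp2 hD).1 h')
  · intro q hq hqM
    by_cases hqD : q ∣ D
    · left
      have : (q : ℤ) ∣ D := Int.natCast_dvd_natCast.2 hqD
      exact ⟨this.mul_right _, this.mul_right _⟩
    · right
      have hqP : q ∣ ∏ j, s j := by
        rcases hq.dvd_mul.1 hqM with h' | h'
        · exact absurd h' hqD
        · exact h'
      obtain ⟨E, hE⟩ := hk q hq hqP
      have hc : q ∣ s 0 ∨ q ∣ s 1 ∨ q ∣ s 2 := by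
        rw [h.P3] at hqP
        rcases hq.dvd_mul.1 hqP with h' | h'
        · rcases hq.dvd_mul.1 h' with h' | h'
          · exact Or.inl h'
          · exact Or.inr (Or.inl h')
        · exact Or.inr (Or.inr h')
      rcases hc with hj | hj | hj
      · left
        refine ⟨(dvd_D hq hqD).2 hj, fun v w x y k => ?_⟩
        have k1 := hE _ _ _ _ k 0 hj
        unfold LR at k1
        rw [if_pos rfl] at k1
        exact k1.1
      · right; left
        refine ⟨(dvd_D hq hqD).2 hj, fun v w x y k => ?_⟩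
        have k1 := hE _ _ _ _ k 1 hj
        unfold LR at k1
        rw [if_neg (by decide), if_pos rfl] at k1
        exact k1.1
      · right; right
        refine ⟨(h.dvdC hq (h.ne2 hj) hqD).2 hj, fun v w x y k => ?_⟩
        have k1 := hE _ _ _ _ k 2 hj
        unfold LR at k1
        rw [if_neg (by decide), if_neg (by decide)] at k1
        exact k1.1

theorem ISOLOC : St_ISOLOC := by
  intro s hs D M L hcase a b ha hb
  have hp17 : Nat.Prime 17 := by norm_num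
  have h17 : ¬ 17 ∣ ∏ j, s j := fun h => lt_irrefl _ (hs.big 17 hp17 h)
  have key : CD a b M L := by
    rcases hcase with ⟨rfl, rfl, rfl⟩ | ⟨rfl, rfl, rfl⟩
    · have hd : Dat s 1 := ⟨hs.sq, hs.odd, Nat.coprime_one_right _, hs.rel, one_pos⟩
      have := cd_of hd (by norm_num) hs.m0 hs.m1 (L := LF s (sgF (s 0) (s 1) (∏ j, s j))) ?_ ?_
      · rw [ha, hb]
        rw [one_mul] at this
        exact this
      · intro p hp hpP c t hc ht
        rw [one_mul] at hpP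
        have hpp := hp.out
        obtain ⟨e0, e1, e2⟩ := hd.memE hpp hpP
        have f0 : p ∣ s 0 → (p ∈ sgF (s 0) (s 1) (∏ j, s j) ↔
            jacobiSym (-(((1 : ℕ) : ℤ) * s 1)) p = -1) := by
          intro h; rw [e0 h, Nat.cast_one, one_mul]
        have f1 : p ∣ s 1 → (p ∈ sgF (s 0) (s 1) (∏ j, s j) ↔
            jacobiSym (-(((1 : ℕ) : ℤ) * s 0)) p = -1) := by
          intro h; rw [e1 h, Nat.cast_one, one_mul]
        have f2 : p ∣ s 2 → (p ∈ sgF (s 0) (s 1) (∏ j, s j) ↔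
            jacobiSym (((1 : ℕ) : ℤ) * s 0) p = -1) := by
          intro h; rw [e2 h, Nat.cast_one, one_mul]
        exact ⟨fun hd' => lf' hd hc ht hd' _ f0 f1 f2, fun hL =>
          hd.pts (by have := hs.big p hpp hpP; omega) hpP (d := (c, t)) hc ht _ hL f0 f1 f2⟩
      · intro q hq hqP
        exact ⟨_, fun v w x y k => k⟩
    · have hd : Dat s 17 := ⟨hs.sq, hs.odd, ((Nat.Prime.coprime_iff_not_dvd hp17).2 h17).symm,
        hs.rel, by norm_num⟩
      have := cd_of hd (by norm_num) hs.m0 hs.m1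
        (L := L17 s (sgF (s 0) (s 1) (∏ j, s j))) ?_ ?_
      · rw [ha, hb]
        exact this
      · intro p hp hpM c t hc ht
        have hpp := hp.out
        by_cases hp17' : p = 17
        · subst hp17'
          unfold L17
          rw [if_pos rfl]
          constructor
          · rintro ⟨x, y, hy, hxy, s1, s2⟩
            have hLL := loclp_of Pool.Agent.W407.SE.ratp 3 ![1, 1, 3] false 17 _ _ (by norm_num)
              ?_ ?_ x y hy hxy c t hc ht s1 s2
            · unfold LL at hLL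
              rw [if_neg (by decide), if_neg (by decide), if_neg (by decide)] at hLL
              exact ll17 _ _ _ _ hLL
            · intro k
              fin_cases k <;> norm_num
            · unfold LocH
              rw [if_neg (by decide), if_neg (by decide), if_neg (by decide)]
              exact loch17 _ _ hs.n0 hs.n1 (fun h' => h17 (h'.trans (hd.sj_dvd 0)))
                (fun h' => h17 (h'.trans (hd.sj_dvd 1)))
          · rintro ⟨k1, k2⟩
            have h017 := hs.n0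
            have h117 := hs.n1
            exact pt17 (by omega) (by omega) hc ht k1 k2
        · unfold L17
          rw [if_neg hp17']
          have hpP : p ∣ ∏ j, s j := by
            rcases (hpp.dvd_mul).1 hpM with h' | h'
            · exact absurd ((Nat.prime_dvd_prime_iff_eq hpp hp17).1 h') hp17'
            · exact h'
          have hpf : p ∈ (∏ j, s j).primeFactors :=
            Nat.mem_primeFactors.2 ⟨hpp, hpP, hs.sq.ne_zero⟩
          obtain ⟨e0, e1, e2⟩ := hd.memE hpp hpP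
          have htw : p ∈ tw (∏ j, s j) (sgF (s 0) (s 1) (∏ j, s j)) ↔
              ¬ (p ∈ sgF (s 0) (s 1) (∏ j, s j) ↔ jacobiSym 17 p = -1) := by
            unfold tw
            rw [mem_filter]
            exact and_iff_right hpf
          have f0 : p ∣ s 0 → (p ∈ tw (∏ j, s j) (sgF (s 0) (s 1) (∏ j, s j)) ↔
              jacobiSym (-(((17 : ℕ) : ℤ) * s 1)) p = -1) := by
            intro h'
            rw [htw, e0 h', ← jac_tw hpp hp17']
            · push_cast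
              rw [mul_neg]
            · rw [dvd_neg, Int.natCast_dvd_natCast]
              exact cop_nd hpp hd.cop01 h'
          have f1 : p ∣ s 1 → (p ∈ tw (∏ j, s j) (sgF (s 0) (s 1) (∏ j, s j)) ↔
              jacobiSym (-(((17 : ℕ) : ℤ) * s 0)) p = -1) := by
            intro h'
            rw [htw, e1 h', ← jac_tw hpp hp17']
            · push_cast
              rw [mul_neg]
            · rw [dvd_neg, Int.natCast_dvd_natCast]
              exact cop_nd hpp hd.cop01.symm h'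
          have f2 : p ∣ s 2 → (p ∈ tw (∏ j, s j) (sgF (s 0) (s 1) (∏ j, s j)) ↔
              jacobiSym (((17 : ℕ) : ℤ) * s 0) p = -1) := by
            intro h'
            rw [htw, e2 h', ← jac_tw hpp hp17']
            · push_cast
              rfl
            · rw [Int.natCast_dvd_natCast]
              exact fun h'' => cop_nd hpp hd.cop012.symm h' (h''.mul_right _)
          exact ⟨fun hd' => lf' hd hc ht hd' _ f0 f1 f2, fun hL =>
            hd.pts (by have := hs.big p hpp hpP; omega) hpP (d := (c, t)) hc ht _ hL f0 f1 f2⟩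
      · intro q hq hqP
        have hq17 : q ≠ 17 := by
          rintro rfl
          exact h17 hqP
        refine ⟨tw (∏ j, s j) (sgF (s 0) (s 1) (∏ j, s j)), fun v w x y k => ?_⟩
        unfold L17 at k
        rwa [if_neg hq17] at k
  exact ⟨key.s0, key.t0, key.s1, key.t1, key.s2, key.t2⟩

end Pool.Agent.Y655.ISO
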