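import Mathlib

/-!
# Project ISO: the quartics of the 2-isogenies and the points of the curve
-/

set_option autoImplicit false
set_option linter.unusedSectionVars false

namespace Pool.Agent.Y655.ISO

/-- small parameters with square values -/
def SQ (K : Type) [Field K] : Prop := ∀ c d : K, ∃ e s1 s2 : K, e ≠ 0 ∧ s1 ≠ 0 ∧ s2 ≠ 0 ∧
  1 + c * e ^ 2 = s1 * s1 ∧ 1 + d * e ^ 2 = s2 * s2

section alg

variable {K : Type} [Field K] [CharZero K]

lemma near0 (hK : SQ K) {a b : K} (ha : a ≠ 0) (hb : b ≠ 0) : ∃ e s x y : K, e ≠ 0 ∧ s ≠ 0 ∧ y ≠ 0 ∧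
    y ^ 2 = x * (x - a) * (x - b) ∧ x = a * b * e ^ 2 ∧ x - a = -a * (s * s) := by
  obtain ⟨e, s1, s2, he, h1, h2, e1, e2⟩ := hK (-b) (-a)
  refine ⟨e, s1, a * b * e ^ 2, a * b * e * s1 * s2, he, h1, by positivity, ?_, rfl, ?_⟩
  · have k1 : a * b * e ^ 2 - a = -a * (s1 * s1) := by rw [← e1]; ring
    have k2 : a * b * e ^ 2 - b = -b * (s2 * s2) := by rw [← e2]; ring
    rw [k1, k2]
    ring
  · rw [← e1]; ring

lemma nearA (hK : SQ K) {a b : K} (ha : a ≠ 0) (hab : a - b ≠ 0) : ∃ e s x y : K, e ≠ 0 ∧ s ≠ 0 ∧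
    y ≠ 0 ∧ y ^ 2 = x * (x - a) * (x - b) ∧ x = a * (s * s) ∧ x - a = a * (a - b) * e ^ 2 := by
  obtain ⟨e, s1, s2, he, h1, h2, e1, e2⟩ := hK (a - b) a
  refine ⟨e, s1, a * (s1 * s1), a * (a - b) * e * s1 * s2, he, h1,
    mul_ne_zero (mul_ne_zero (mul_ne_zero (mul_ne_zero ha hab) he) h1) h2, ?_, rfl, ?_⟩
  · have k1 : a * (s1 * s1) - a = a * (a - b) * e ^ 2 := by rw [← e1]; ring
    have k2 : a * (s1 * s1) - b = (a - b) * (s2 * s2) := by rw [← e1, ← e2]; ring
    rw [k1, k2]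
    ring
  · rw [← e1]; ring

lemma nearB (hK : SQ K) {a b : K} (hb : b ≠ 0) (hab : a - b ≠ 0) : ∃ e s x y s' : K, e ≠ 0 ∧
    s ≠ 0 ∧ y ≠ 0 ∧ y ^ 2 = x * (x - a) * (x - b) ∧ x = b * (s * s) ∧ x - a = (b - a) * (s' * s') := by
  obtain ⟨e, s1, s2, he, h1, h2, e1, e2⟩ := hK (b - a) b
  have hba : b - a ≠ 0 := by
    intro h
    apply hab
    linear_combination -h
  refine ⟨e, s1, b * (s1 * s1), b * (b - a) * e * s1 * s2, s2, he, h1,
    mul_ne_zero (mul_ne_zero (mul_ne_zero (mul_ne_zero hb hba) he) h1) h2, ?_, rfl, ?_⟩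
  · have k1 : b * (s1 * s1) - b = b * (b - a) * e ^ 2 := by rw [← e1]; ring
    have k2 : b * (s1 * s1) - a = (b - a) * (s2 * s2) := by rw [← e1, ← e2]; ring
    rw [k1, k2]
    ring
  · rw [← e1, ← e2]; ring

lemma nearI (hK : SQ K) (a b : K) : ∃ x y u v : K, y ≠ 0 ∧ y ^ 2 = x * (x - a) * (x - b) ∧
    x = u * u ∧ x - a = v * v := by
  obtain ⟨e, s1, s2, he, h1, h2, e1, e2⟩ := hK (-a) (-b)
  have k1 : 1 / e ^ 2 - a = s1 * s1 / e ^ 2 := by rw [← e1]; field_simp; ring
  have k2 : 1 / e ^ 2 - b = s2 * s2 / e ^ 2 := by rw [← e2]; field_simp; ring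
  refine ⟨1 / e ^ 2, s1 * s2 / e ^ 3, 1 / e, s1 / e, by positivity, ?_, by field_simp, ?_⟩
  · rw [k1, k2]
    field_simp
  · rw [k1]
    field_simp

/-- the quartics of the first kind -/
theorem alg1 (hK : SQ K) {a b r q : K} (ha : a ≠ 0) (hb : b ≠ 0) (hab : a - b ≠ 0) (hr : r ≠ 0)
    (hq : q * r = a * b) :
    (∃ N M e : K, (M ≠ 0 ∨ e ≠ 0) ∧ N ^ 2 = r * M ^ 4 + (-(a + b)) * M ^ 2 * e ^ 2 + q * e ^ 4) ↔
    ∃ x y : K, y ≠ 0 ∧ y ^ 2 = x * (x - a) * (x - b) ∧ IsSquare (x * r) := by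
  have hqe : q = a * b / r := by field_simp; linear_combination hq
  constructor
  · rintro ⟨N, M, e, h0, h⟩
    by_cases he : e = 0
    · have hM : M ≠ 0 := by
        rcases h0 with h0 | h0
        · exact h0
        · exact absurd he h0
      obtain ⟨x, y, u, v, hy, hxy, hx, -⟩ := nearI hK a b
      refine ⟨x, y, hy, hxy, u * (N / M ^ 2), ?_⟩
      have hr' : r = (N / M ^ 2) ^ 2 := by
        rw [he] at h
        field_simp
        linear_combination -h
      rw [hx]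
      calc u * u * r = u * u * (N / M ^ 2) ^ 2 := by rw [← hr']
        _ = _ := by ring
    by_cases hM : M = 0
    · obtain ⟨e', s, x, y, he', hs, hy, hxy, hx, -⟩ := near0 hK ha hb
      refine ⟨x, y, hy, hxy, e' * (N / e ^ 2) * r, ?_⟩
      have hq' : q = (N / e ^ 2) ^ 2 := by
        rw [hM] at h
        field_simp
        linear_combination -h
      calc x * r = a * b * e' ^ 2 * r := by rw [hx]
        _ = q * r * e' ^ 2 * r := by rw [hq]
        _ = (N / e ^ 2) ^ 2 * r * e' ^ 2 * r := by rw [← hq']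
        _ = _ := by ring
    have hk : (r * M * N / e ^ 3) ^ 2 =
        (r * M ^ 2 / e ^ 2) * (r * M ^ 2 / e ^ 2 - a) * (r * M ^ 2 / e ^ 2 - b) := by
      rw [div_pow, mul_pow, h, hqe]
      field_simp
      ring
    have hsq : r * M ^ 2 / e ^ 2 * r = (r * M / e) * (r * M / e) := by
      field_simp
    by_cases hN : N = 0
    · rw [hN] at hk
      have h1 : (r * M ^ 2 / e ^ 2 - a) * (r * M ^ 2 / e ^ 2 - b) = 0 := by
        have h2 : (r * M ^ 2 / e ^ 2) * ((r * M ^ 2 / e ^ 2 - a) * (r * M ^ 2 / e ^ 2 - b)) = 0 := by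
          rw [← mul_assoc, ← hk]; simp
        rcases mul_eq_zero.1 h2 with h3 | h3
        · exfalso
          exact (div_ne_zero (mul_ne_zero hr (pow_ne_zero _ hM)) (pow_ne_zero _ he)) h3
        · exact h3
      rcases mul_eq_zero.1 h1 with h2 | h2
      · obtain ⟨e', s, x, y, he', hs, hy, hxy, hx, -⟩ := nearA hK ha hab
        have h3 : r * M ^ 2 / e ^ 2 = a := by linear_combination h2
        refine ⟨x, y, hy, hxy, s * (r * M / e), ?_⟩
        rw [hx]
        calc a * (s * s) * r = (r * M ^ 2 / e ^ 2) * (s * s) * r := by rw [h3]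
          _ = s * (r * M / e) * (s * (r * M / e)) := by linear_combination (s * s) * hsq
      · obtain ⟨e', s, x, y, s', he', hs, hy, hxy, hx, -⟩ := nearB hK hb hab
        have h3 : r * M ^ 2 / e ^ 2 = b := by linear_combination h2
        refine ⟨x, y, hy, hxy, s * (r * M / e), ?_⟩
        rw [hx]
        calc b * (s * s) * r = (r * M ^ 2 / e ^ 2) * (s * s) * r := by rw [h3]
          _ = s * (r * M / e) * (s * (r * M / e)) := by linear_combination (s * s) * hsq
    · exact ⟨r * M ^ 2 / e ^ 2, r * M * N / e ^ 3,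
        div_ne_zero (mul_ne_zero (mul_ne_zero hr hM) hN) (pow_ne_zero _ he), hk, _, hsq⟩
  · rintro ⟨x, y, hy, hxy, u, hu⟩
    have hx : x ≠ 0 := by
      rintro rfl
      apply hy
      have : y ^ 2 = 0 := by rw [hxy]; ring
      exact pow_eq_zero_iff (two_ne_zero) |>.1 this
    have hu0 : u ≠ 0 := by
      rintro rfl
      rw [mul_zero] at hu
      exact (mul_ne_zero hx hr) hu
    have hx' : x = u ^ 2 / r := by
      field_simp
      linear_combination hu
    refine ⟨y / u, u / r, 1, Or.inr one_ne_zero, ?_⟩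
    rw [div_pow, hxy, hqe]
    rw [hx']
    field_simp
    ring

/-- the quartics of the second kind -/
theorem alg2 (hK : SQ K) {a b t q : K} (ha : a ≠ 0) (hb : b ≠ 0) (hab : a - b ≠ 0) (ht : t ≠ 0)
    (hq : q * t = (a - b) ^ 2) :
    (∃ N M e : K, (M ≠ 0 ∨ e ≠ 0) ∧ N ^ 2 = t * M ^ 4 + (2 * (a + b)) * M ^ 2 * e ^ 2 + q * e ^ 4) ↔
    ∃ x y : K, y ≠ 0 ∧ y ^ 2 = x * (x - a) * (x - b) ∧ IsSquare x ∧ IsSquare ((x - a) * t) := by
  have hqe : q = (a - b) ^ 2 / t := by field_simp; linear_combination hq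
  have h2 : (2 : K) ≠ 0 := two_ne_zero
  constructor
  · rintro ⟨N, M, e, h0, h⟩
    -- the case of a square
    have hsqt : IsSquare t → ∃ x y : K, y ≠ 0 ∧ y ^ 2 = x * (x - a) * (x - b) ∧ IsSquare x ∧
        IsSquare ((x - a) * t) := by
      rintro ⟨g, hg⟩
      obtain ⟨x, y, u, v, hy, hxy, hx, hv⟩ := nearI hK a b
      refine ⟨x, y, hy, hxy, ⟨u, hx⟩, v * g, ?_⟩
      rw [hv, hg]
      ring
    by_cases he : e = 0
    · have hM : M ≠ 0 := by
        rcases h0 with h0 | h0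
        · exact h0
        · exact absurd he h0
      refine hsqt ⟨N / M ^ 2, ?_⟩
      rw [he] at h
      field_simp
      linear_combination -h
    by_cases hM : M = 0
    · have hN : N ≠ 0 := by
        rintro rfl
        rw [hM] at h
        have h3 : q * e ^ 4 = 0 := by linear_combination -h
        rcases mul_eq_zero.1 h3 with h4 | h4
        · rw [h4, zero_mul] at hq
          exact (pow_ne_zero 2 hab) hq.symm
        · exact he (pow_eq_zero_iff (by norm_num) |>.1 h4)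
      refine hsqt ⟨(a - b) * e ^ 2 / N, ?_⟩
      rw [hM] at h
      have h3 : N ^ 2 * t = (a - b) ^ 2 * e ^ 4 := by
        rw [h, ← hq]; ring
      field_simp
      linear_combination h3
    -- the general case
    obtain ⟨u, hu⟩ : ∃ u, u = N / (2 * M * e) := ⟨_, rfl⟩
    obtain ⟨v, hv⟩ : ∃ v, v = (M / e + (b - a) * e / (t * M)) / 2 := ⟨_, rfl⟩
    obtain ⟨w, hw⟩ : ∃ w, w = (M / e - (b - a) * e / (t * M)) / 2 := ⟨_, rfl⟩
    have e1 : u ^ 2 - a = t * v ^ 2 := by
      rw [hu, hv, div_pow, h, hqe]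
      field_simp
      ring
    have e2 : u ^ 2 - b = t * w ^ 2 := by
      rw [hu, hw, div_pow, h, hqe]
      field_simp
      ring
    by_cases hu0 : u = 0
    · obtain ⟨e', s, x, y, he', hs, hy, hxy, hx, hxa⟩ := near0 hK ha hb
      have k1 : a = -(t * v ^ 2) := by rw [hu0] at e1; linear_combination -e1
      have k2 : b = -(t * w ^ 2) := by rw [hu0] at e2; linear_combination -e2
      refine ⟨x, y, hy, hxy, ⟨t * v * w * e', ?_⟩, ⟨t * v * s, ?_⟩⟩
      · rw [hx, k1, k2]; ring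
      · rw [hxa, k1]; ring
    by_cases hv0 : v = 0
    · obtain ⟨e', s, x, y, he', hs, hy, hxy, hx, hxa⟩ := nearA hK ha hab
      have k1 : a = u ^ 2 := by rw [hv0] at e1; linear_combination -e1
      have k2 : a - b = t * w ^ 2 := by rw [← e2, ← k1]
      refine ⟨x, y, hy, hxy, ⟨u * s, ?_⟩, ⟨t * u * w * e', ?_⟩⟩
      · rw [hx, k1]; ring
      · rw [hxa, k2, k1]; ring
    by_cases hw0 : w = 0
    · obtain ⟨e', s, x, y, s', he', hs, hy, hxy, hx, hxa⟩ := nearB hK hb hab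
      have k1 : b = u ^ 2 := by rw [hw0] at e2; linear_combination -e2
      have k2 : b - a = t * v ^ 2 := by rw [← e1, ← k1]
      refine ⟨x, y, hy, hxy, ⟨u * s, ?_⟩, ⟨t * v * s', ?_⟩⟩
      · rw [hx, k1]; ring
      · rw [hxa, k2]; ring
    refine ⟨u ^ 2, t * u * v * w, mul_ne_zero (mul_ne_zero (mul_ne_zero ht hu0) hv0) hw0, ?_,
      ⟨u, sq u⟩, ⟨t * v, ?_⟩⟩
    · rw [e1, e2]; ring
    · rw [e1]; ring
  · rintro ⟨x, y, hy, hxy, ⟨u, hu⟩, r, hr⟩
    have hx : x ≠ 0 := by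
      rintro rfl
      apply hy
      have : y ^ 2 = 0 := by rw [hxy]; ring
      exact pow_eq_zero_iff (two_ne_zero) |>.1 this
    have hu0 : u ≠ 0 := by
      rintro rfl
      exact hx (by rw [hu, mul_zero])
    have hxa : x - a ≠ 0 := by
      intro h3
      apply hy
      have : y ^ 2 = 0 := by rw [hxy, h3]; ring
      exact pow_eq_zero_iff (two_ne_zero) |>.1 this
    have hr0 : r ≠ 0 := by
      rintro rfl
      rw [mul_zero] at hr
      exact (mul_ne_zero hxa ht) hr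
    obtain ⟨v, hv⟩ : ∃ v, v = r / t := ⟨_, rfl⟩
    have hv0 : v ≠ 0 := by rw [hv]; exact div_ne_zero hr0 ht
    have e1 : x - a = t * v ^ 2 := by
      rw [hv]
      field_simp
      linear_combination hr
    obtain ⟨w, hw⟩ : ∃ w, w = y / (t * u * v) := ⟨_, rfl⟩
    have e2 : x - b = t * w ^ 2 := by
      have h3 : y ^ 2 = (u * u) * (t * v ^ 2) * (x - b) := by
        rw [hxy, e1, ← hu]
      rw [hw, div_pow, h3]
      field_simp
    refine ⟨2 * u * (v + w), v + w, 1, Or.inr one_ne_zero, ?_⟩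
    have k1 : a = u * u - t * v ^ 2 := by rw [← hu]; linear_combination -e1
    have k2 : b = u * u - t * w ^ 2 := by rw [← hu]; linear_combination -e2
    rw [hqe, k1, k2]
    field_simp
    ring

end alg

end Pool.Agent.Y655.ISO
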