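import Pool.Agent.Y655.ISO.Alg
import Pool.Agent.Y667.ISO.Stm
import Pool.Agent.Y535.RZ.SURJ
import Pool.Agent.Y105.RZ.Goods
import Pool.Agent.TH460.NO.Pr0

/-!
# Project ISO: square classes of the local fields
-/

set_option autoImplicit false
set_option linter.unusedSectionVars false

namespace Pool.Agent.Y655.ISO

open Finset Pool.Agent.W262.RK Pool.Agent.W307.RT Pool.Agent.W307.RS Pool.Agent.W307.SE
  Pool.Agent.W307.FK Pool.Agent.W214.RK2 Pool.Agent.Y667.RP Pool.Agent.Y667.RZ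
open Pool.Agent.Y535.RZ (jac_val jac_nd dvsgn_false dvsgn_true dec_j sq_one_of sqp)
open Pool.Agent.W405.SE (even_val not_dvd goodp_of)
open Pool.Agent.TH460.NO (sq_jac)

/-! ### Squares near one, representatives -/

section pad

variable {p : ℕ} [hp : Fact p.Prime]

lemma norm4p_pos : 0 < ‖(4 * p : ℚ_[p])‖ := by
  rw [norm_pos_iff]
  have : (p : ℚ_[p]) ≠ 0 := by exact_mod_cast hp.out.ne_zero
  have h4 : (4 : ℚ_[p]) ≠ 0 := by norm_num
  exact mul_ne_zero h4 this

lemma norm4p_lt : ‖(4 * p : ℚ_[p])‖ < 1 := by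
  have h1 : ‖(4 : ℚ_[p])‖ ≤ 1 := by
    have := Padic.norm_int_le_one (p := p) 4
    simpa using this
  rw [norm_mul]
  have h2 : ‖(p : ℚ_[p])‖ < 1 := Padic.norm_p_lt_one
  calc ‖(4 : ℚ_[p])‖ * ‖(p : ℚ_[p])‖ ≤ 1 * ‖(p : ℚ_[p])‖ := by gcongr
    _ < 1 := by rw [one_mul]; exact h2

lemma near_one {w : ℚ_[p]} (hw : ‖w‖ ≤ ‖(4 * p : ℚ_[p])‖) : ∃ s : ℚ_[p], s ≠ 0 ∧ 1 + w = s * s := by
  have h0 := norm4p_pos (p := p)
  have h1 : ‖w / (4 * p)‖ ≤ 1 := by
    rw [norm_div, div_le_one h0]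
    exact hw
  have hne : (4 * p : ℚ_[p]) ≠ 0 := norm_pos_iff.1 h0
  obtain ⟨v, hv⟩ : ∃ v : ℤ_[p], (v : ℚ_[p]) = w / (4 * p) := ⟨⟨w / (4 * p), h1⟩, rfl⟩
  obtain ⟨z, hz⟩ := hens p v
  have h2 := congrArg (fun t : ℤ_[p] => (t : ℚ_[p])) hz
  have hc4 : ((4 : ℤ_[p]) : ℚ_[p]) = 4 := rfl
  push_cast at h2
  rw [hc4, hv] at h2
  have h3 : 1 + w = (z : ℚ_[p]) * z := by
    rw [← h2, mul_div_cancel₀ w hne]
  refine ⟨z, ?_, h3⟩
  intro hz0
  rw [hz0, mul_zero] at h3
  have h4 : w = -1 := by linear_combination h3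
  rw [h4, norm_neg, norm_one] at hw
  exact absurd hw (not_le.2 norm4p_lt)

lemma sqPad : SQ ℚ_[p] := by
  intro c d
  have h0 := norm4p_pos (p := p)
  have hC : 0 < ‖c‖ + ‖d‖ + 1 := by positivity
  obtain ⟨n, hn⟩ := exists_pow_lt_of_lt_one (div_pos h0 hC) (Padic.norm_p_lt_one (p := p))
  have hp0 : (p : ℚ_[p]) ≠ 0 := by exact_mod_cast hp.out.ne_zero
  have hpn : ‖(p : ℚ_[p]) ^ n‖ ≤ 1 := by
    rw [norm_pow]
    exact pow_le_one₀ (norm_nonneg _) Padic.norm_p_lt_one.le
  have key : ∀ x : ℚ_[p], ‖x‖ ≤ ‖c‖ + ‖d‖ + 1 → ‖x * ((p : ℚ_[p]) ^ n) ^ 2‖ ≤ ‖(4 * p : ℚ_[p])‖ := by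
    intro x hx
    rw [norm_mul, norm_pow (‖(p : ℚ_[p]) ^ n‖ : ℝ) |> fun _ => norm_pow ((p : ℚ_[p]) ^ n) 2, sq]
    rw [lt_div_iff₀ hC] at hn
    rw [← norm_pow] at hn
    calc ‖x‖ * (‖(p : ℚ_[p]) ^ n‖ * ‖(p : ℚ_[p]) ^ n‖)
        ≤ (‖c‖ + ‖d‖ + 1) * (‖(p : ℚ_[p]) ^ n‖ * 1) := by gcongr
      _ = ‖(p : ℚ_[p]) ^ n‖ * (‖c‖ + ‖d‖ + 1) := by ring
      _ ≤ _ := hn.le
  have hd0 := norm_nonneg d
  have hc0 := norm_nonneg c
  obtain ⟨s1, h1, e1⟩ := near_one (key c (by linarith))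
  obtain ⟨s2, h2, e2⟩ := near_one (key d (by linarith))
  exact ⟨(p : ℚ_[p]) ^ n, s1, s2, pow_ne_zero _ hp0, h1, h2, e1, e2⟩

/-- squarefree representatives -/
lemma repPad (x : ℚ_[p]) (hx : x ≠ 0) : ∃ e : ℤ, Squarefree e ∧ IsSquare (x * e) := by
  have h0 := norm4p_pos (p := p)
  have hxn : 0 < ‖x‖ := norm_pos_iff.2 hx
  obtain ⟨r, hr⟩ := Padic.rat_dense p x (mul_pos h0 hxn)
  have h1 : ‖((r : ℚ_[p]) - x) / x‖ ≤ ‖(4 * p : ℚ_[p])‖ := by
    rw [norm_div, div_le_iff₀ hxn, norm_sub_rev]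
    exact hr.le
  obtain ⟨s, hs, e1⟩ := near_one h1
  have h2 : (r : ℚ_[p]) = x * (s * s) := by
    rw [← e1]
    field_simp
    ring
  have hr0 : r ≠ 0 := by
    rintro rfl
    rw [Rat.cast_zero] at h2
    exact (mul_ne_zero hx (mul_ne_zero hs hs)) h2.symm
  obtain ⟨e, he, g, hg⟩ := exists_rep r hr0
  refine ⟨e, he, (g : ℚ_[p]) / s, ?_⟩
  have h3 : (r : ℚ_[p]) * e = g * g := by exact_mod_cast congrArg (fun t : ℚ => (t : ℚ_[p])) hg
  rw [h2] at h3
  field_simp
  linear_combination h3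

end pad

lemma sqReal : SQ ℝ := by
  intro c d
  have hC : 0 < |c| + |d| + 1 := by positivity
  obtain ⟨e, he⟩ : ∃ e, e = 1 / (2 * (|c| + |d| + 1)) := ⟨_, rfl⟩
  have he0 : 0 < e := by rw [he]; positivity
  have he1 : e ≤ 1 / 2 := by
    rw [he, div_le_div_iff₀ (by positivity) (by norm_num)]
    have := abs_nonneg c
    have := abs_nonneg d
    linarith
  have key : ∀ x : ℝ, |x| ≤ |c| + |d| + 1 → 0 < 1 + x * e ^ 2 := by
    intro x hx
    have h1 : (|c| + |d| + 1) * e = 1 / 2 := by rw [he]; field_simp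
    have h2 : |x * e ^ 2| ≤ 1 / 4 := by
      rw [abs_mul, abs_of_pos (pow_pos he0 2)]
      calc |x| * e ^ 2 ≤ (|c| + |d| + 1) * e ^ 2 := by gcongr
        _ = ((|c| + |d| + 1) * e) * e := by ring
        _ = 1 / 2 * e := by rw [h1]
        _ ≤ 1 / 2 * (1 / 2) := by gcongr
        _ = 1 / 4 := by norm_num
    have h3 := (abs_le.1 h2).1
    linarith
  have k1 := key c (by have := abs_nonneg d; linarith)
  have k2 := key d (by have := abs_nonneg c; linarith)
  exact ⟨e, √(1 + c * e ^ 2), √(1 + d * e ^ 2), he0.ne', (Real.sqrt_pos.2 k1).ne',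
    (Real.sqrt_pos.2 k2).ne', (Real.mul_self_sqrt k1.le).symm, (Real.mul_self_sqrt k2.le).symm⟩

lemma repReal (x : ℝ) (hx : x ≠ 0) : ∃ e : ℤ, Squarefree e ∧ IsSquare (x * e) := by
  rcases lt_or_gt_of_ne hx with h | h
  · refine ⟨-1, ?_, ?_⟩
    · exact (Int.isUnit_iff.2 (Or.inr rfl)).squarefree
    · push_cast
      rw [mul_neg, mul_one]
      exact ⟨√(-x), (Real.mul_self_sqrt (by linarith)).symm⟩
  · refine ⟨1, squarefree_one, ?_⟩
    push_cast
    rw [mul_one]
    exact ⟨√x, (Real.mul_self_sqrt h.le).symm⟩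

section symb

variable {p : ℕ} [hp : Fact p.Prime]

/-- squares among the products of two squarefree integers -/
lemma sq_iff (h2 : p ≠ 2) {x y : ℤ} (hx : Squarefree x) (hy : Squarefree y) :
    IsSquare ((x : ℚ_[p]) * y) ↔ dv p x = dv p y ∧ sgn p x = sgn p y := by
  constructor
  · intro h
    have hx0 : (x : ℚ_[p]) ≠ 0 := by exact_mod_cast hx.ne_zero
    have hy0 : (y : ℚ_[p]) ≠ 0 := by exact_mod_cast hy.ne_zero
    have hv := even_val hx0 hy0 h
    cases h1 : dv p x <;> cases h2' : dv p y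
    · obtain ⟨n1, s1⟩ := dvsgn_false h1
      obtain ⟨n2, s2⟩ := dvsgn_false h2'
      refine ⟨rfl, ?_⟩
      have h3 : jacobiSym (x * y) p = 1 := by
        refine sq_jac ?_ ?_
        · intro h'
          rcases (Nat.prime_iff_prime_int.1 hp.out).dvd_or_dvd h' with h'' | h''
          · exact n1 h''
          · exact n2 h''
        · push_cast; exact h
      rw [s1, s2, decide_eq_decide]
      rw [jacobiSym.mul_left] at h3
      rcases jac_val n1 with h4 | h4 <;> rcases jac_val n2 with h5 | h5 <;> rw [h4, h5] at h3 ⊢ <;>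
        revert h3 <;> norm_num
    · exfalso
      obtain ⟨n1, s1⟩ := dvsgn_false h1
      have h3 : (p : ℤ) ∣ y := by
        unfold dv at h2'
        exact of_decide_eq_true h2'
      have h4 : ((x : ℚ_[p])).valuation = 0 := by
        rw [Padic.valuation_intCast, padicValInt.eq_zero_of_not_dvd n1]
        rfl
      rw [h4, zero_add] at hv
      exact not_dvd hy hv h3
    · exfalso
      obtain ⟨n2, s2⟩ := dvsgn_false h2'
      have h3 : (p : ℤ) ∣ x := by
        unfold dv at h1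
        exact of_decide_eq_true h1
      have h4 : ((y : ℚ_[p])).valuation = 0 := by
        rw [Padic.valuation_intCast, padicValInt.eq_zero_of_not_dvd n2]
        rfl
      rw [h4, add_zero] at hv
      exact not_dvd hx hv h3
    · obtain ⟨x', rfl, n1, s1⟩ := dvsgn_true hx h1
      obtain ⟨y', rfl, n2, s2⟩ := dvsgn_true hy h2'
      refine ⟨rfl, ?_⟩
      have hp0 : (p : ℚ_[p]) ≠ 0 := by exact_mod_cast hp.out.ne_zero
      have h3 : jacobiSym (x' * y') p = 1 := by
        refine sq_jac ?_ ?_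
        · intro h'
          rcases (Nat.prime_iff_prime_int.1 hp.out).dvd_or_dvd h' with h'' | h''
          · exact n1 h''
          · exact n2 h''
        · obtain ⟨r, hr⟩ := h
          refine ⟨r / p, ?_⟩
          push_cast at hr ⊢
          field_simp
          linear_combination hr
      rw [s1, s2, decide_eq_decide]
      rw [jacobiSym.mul_left] at h3
      rcases jac_val n1 with h4 | h4 <;> rcases jac_val n2 with h5 | h5 <;> rw [h4, h5] at h3 ⊢ <;>
        revert h3 <;> norm_num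
  · rintro ⟨h1, h3⟩
    cases h1' : dv p x
    · obtain ⟨n1, s1⟩ := dvsgn_false h1'
      obtain ⟨n2, s2⟩ := dvsgn_false (h1 ▸ h1')
      rw [s1, s2] at h3
      have h4 := dec_j (jac_val n1) (jac_val n2) h3
      have h5 : jacobiSym (x * y) p = 1 := by
        rw [jacobiSym.mul_left, h4]
        exact sq_one_of (jac_val n2)
      have := sqp h2 0 h5 (N := x * y) (by ring)
      push_cast at this
      exact this
    · obtain ⟨x', rfl, n1, s1⟩ := dvsgn_true hx h1'
      obtain ⟨y', rfl, n2, s2⟩ := dvsgn_true hy (h1 ▸ h1')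
      rw [s1, s2] at h3
      have h4 := dec_j (jac_val n1) (jac_val n2) h3
      have h5 : jacobiSym (x' * y') p = 1 := by
        rw [jacobiSym.mul_left, h4]
        exact sq_one_of (jac_val n2)
      have := sqp h2 1 h5 (N := p * x' * (p * y')) (by ring)
      push_cast at this ⊢
      exact this

/-- squarefree integers with prescribed symbols -/
lemma exists_dvsgn (h2 : p ≠ 2) (w g : Bool) : ∃ t : ℤ, Squarefree t ∧ dv p t = w ∧ sgn p t = g := by
  -- a p-adic number in the class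
  obtain ⟨u, hu⟩ : ∃ u : ℤ, jacobiSym u p = if g then -1 else 1 := by
    cases g
    · exact ⟨1, by simp⟩
    · obtain ⟨v, hv⟩ := FiniteField.exists_nonsquare (F := ZMod p) (by
        rw [ZMod.ringChar_zmod_n]; exact h2)
      refine ⟨(v.val : ℤ), ?_⟩
      rw [← jacobiSym.legendreSym.to_jacobiSym, if_pos rfl, legendreSym.eq_neg_one_iff]
      simpa using hv
  have hun : ¬ (p : ℤ) ∣ u := jac_nd (by rw [hu]; split_ifs <;> norm_num)
  have hu0 : u ≠ 0 := by
    rintro rfl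
    exact hun (dvd_zero _)
  obtain ⟨e, he, hs⟩ := repPad (p := p) (u : ℚ_[p]) (by exact_mod_cast hu0)
  -- the unit representative
  have hv := even_val (p := p) (a := (u : ℚ_[p])) (b := (e : ℚ_[p])) (by exact_mod_cast hu0)
    (by exact_mod_cast he.ne_zero) hs
  have h4 : ((u : ℚ_[p])).valuation = 0 := by
    rw [Padic.valuation_intCast, padicValInt.eq_zero_of_not_dvd hun]
    rfl
  rw [h4, zero_add] at hv
  have hen := not_dvd he hv
  have hj : jacobiSym e p = if g then -1 else 1 := by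
    have h5 : jacobiSym (u * e) p = 1 := by
      refine sq_jac ?_ (by push_cast; exact hs)
      intro h'
      rcases (Nat.prime_iff_prime_int.1 hp.out).dvd_or_dvd h' with h'' | h''
      · exact hun h''
      · exact hen h''
    rw [jacobiSym.mul_left, hu] at h5
    rcases jac_val hen with h6 | h6 <;> rw [h6] at h5 ⊢ <;> cases g <;> revert h5 <;> norm_num
  have hdf : dv p e = false := by
    unfold dv
    exact decide_eq_false hen
  have hsg : sgn p e = g := by
    rw [(dvsgn_false hdf).2, hj]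
    cases g <;> norm_num
  cases w
  · exact ⟨e, he, hdf, hsg⟩
  · have hpp := Nat.prime_iff_prime_int.1 hp.out
    have hq : Squarefree ((p : ℤ) * e) := by
      rw [squarefree_mul_iff]
      refine ⟨?_, hpp.squarefree, he⟩
      exact (hpp.coprime_iff_not_dvd.2 hen).isRelPrime
    have hdt : dv p ((p : ℤ) * e) = true := by
      unfold dv
      exact decide_eq_true (dvd_mul_right _ _)
    refine ⟨p * e, hq, hdt, ?_⟩
    obtain ⟨e', h1, h3, h5⟩ := dvsgn_true hq hdt
    have h6 : e = e' := mul_left_cancel₀ hpp.ne_zero h1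
    rw [h5, ← h6, hj]
    cases g <;> norm_num

end symb

end Pool.Agent.Y655.ISO
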