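import Pool.Agent.Y655.ISO.Cls

/-!
# Project ISO: quartics, points and local classes
-/

set_option autoImplicit false
set_option linter.unusedSectionVars false

namespace Pool.Agent.Y655.ISO

open Finset Pool.Agent.W262.RK Pool.Agent.W307.RT Pool.Agent.W307.RS Pool.Agent.W307.SE
  Pool.Agent.W307.FK Pool.Agent.W214.RK2 Pool.Agent.Y667.RP Pool.Agent.Y667.RZ
open Pool.Agent.Y535.RZ (jac_val jac_nd dvsgn_false dvsgn_true dec_j sq_one_of sqp)

section curve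

variable (K : Type) [Field K] (a b r : ℤ)

/-- a point whose first coordinate has the class `r` -/
def E0 : Prop := ∃ x y : K, y ≠ 0 ∧ y ^ 2 = x * (x - a) * (x - b) ∧ IsSquare (x * r)
def E1 : Prop := ∃ x y : K, y ≠ 0 ∧ y ^ 2 = x * (x - a) * (x - b) ∧ IsSquare ((x - a) * r)
def E2 : Prop := ∃ x y : K, y ≠ 0 ∧ y ^ 2 = x * (x - a) * (x - b) ∧ IsSquare ((x - b) * r)
def I0 : Prop := ∃ x y : K, y ≠ 0 ∧ y ^ 2 = x * (x - a) * (x - b) ∧ IsSquare x ∧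
  IsSquare ((x - a) * r)
def I1 : Prop := ∃ x y : K, y ≠ 0 ∧ y ^ 2 = x * (x - a) * (x - b) ∧ IsSquare (x - a) ∧
  IsSquare (x * r)
def I2 : Prop := ∃ x y : K, y ≠ 0 ∧ y ^ 2 = x * (x - a) * (x - b) ∧ IsSquare (x - b) ∧
  IsSquare (x * r)

/-- the quartic is solvable -/
def Qt (α β : ℤ) : Prop := ∃ N M e : K, (M ≠ 0 ∨ e ≠ 0) ∧
  N ^ 2 = (r : K) * M ^ 4 + (α : K) * M ^ 2 * e ^ 2 + ((β / r : ℤ) : K) * e ^ 4

end curve

section quart

variable {K : Type} [Field K] [CharZero K] (hK : SQ K) {a b r : ℤ}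

include hK

lemma qt_alg1 {A B α β : ℤ} (hA : A ≠ 0) (hB : B ≠ 0) (hAB : A ≠ B) (hr : r ≠ 0)
    (hα : α = -(A + B)) (hβ : β = A * B) (hd : r ∣ β) :
    Qt K r α β ↔ ∃ x y : K, y ≠ 0 ∧ y ^ 2 = x * (x - A) * (x - B) ∧ IsSquare (x * r) := by
  have hr' : (r : K) ≠ 0 := by exact_mod_cast hr
  have hq : ((β / r : ℤ) : K) * r = A * B := by
    have h1 : β / r * r = A * B := by rw [Int.ediv_mul_cancel hd, hβ]
    exact_mod_cast congrArg (fun t : ℤ => (t : K)) h1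
  have hAB' : (A : K) - B ≠ 0 := by
    rw [sub_ne_zero]
    exact_mod_cast hAB
  have h := alg1 hK (a := (A : K)) (b := B) (r := r) (q := ((β / r : ℤ) : K))
    (by exact_mod_cast hA) (by exact_mod_cast hB) hAB' hr' hq
  rw [← h]
  unfold Qt
  rw [hα]
  push_cast
  rfl

lemma qt_alg2 {A B α β : ℤ} (hA : A ≠ 0) (hB : B ≠ 0) (hAB : A ≠ B) (hr : r ≠ 0)
    (hα : α = 2 * (A + B)) (hβ : β = (A - B) ^ 2) (hd : r ∣ β) :
    Qt K r α β ↔ ∃ x y : K, y ≠ 0 ∧ y ^ 2 = x * (x - A) * (x - B) ∧ IsSquare x ∧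
      IsSquare ((x - A) * r) := by
  have hr' : (r : K) ≠ 0 := by exact_mod_cast hr
  have hq : ((β / r : ℤ) : K) * r = ((A : K) - B) ^ 2 := by
    have h1 : β / r * r = (A - B) ^ 2 := by rw [Int.ediv_mul_cancel hd, hβ]
    exact_mod_cast congrArg (fun t : ℤ => (t : K)) h1
  have hAB' : (A : K) - B ≠ 0 := by
    rw [sub_ne_zero]
    exact_mod_cast hAB
  have h := alg2 hK (a := (A : K)) (b := B) (t := r) (q := ((β / r : ℤ) : K))
    (by exact_mod_cast hA) (by exact_mod_cast hB) hAB' hr' hq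
  rw [← h]
  unfold Qt
  rw [hα]
  push_cast
  rfl

lemma q0 (ha : a ≠ 0) (hb : b ≠ 0) (hab : a ≠ b) (hr : r ≠ 0) (hd : r ∣ a * b) :
    Qt K r (-(a + b)) (a * b) ↔ E0 K a b r := qt_alg1 hK ha hb hab hr rfl rfl hd

lemma qI0 (ha : a ≠ 0) (hb : b ≠ 0) (hab : a ≠ b) (hr : r ≠ 0) (hd : r ∣ (a - b) ^ 2) :
    Qt K r (2 * (a + b)) ((a - b) ^ 2) ↔ I0 K a b r := qt_alg2 hK ha hb hab hr rfl rfl hd

lemma q1 (ha : a ≠ 0) (hb : b ≠ 0) (hab : a ≠ b) (hr : r ≠ 0) (hd : r ∣ a * (a - b)) :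
    Qt K r (2 * a - b) (a * (a - b)) ↔ E1 K a b r := by
  rw [qt_alg1 hK (A := -a) (B := b - a) (neg_ne_zero.2 ha) (sub_ne_zero.2 hab.symm)
    (fun h => hb (by linarith)) hr (by ring) (by ring) hd]
  constructor
  · rintro ⟨x, y, hy, hxy, hs⟩
    refine ⟨x + a, y, hy, ?_, ?_⟩
    · rw [hxy]; push_cast; ring
    · rwa [add_sub_cancel_right]
  · rintro ⟨x, y, hy, hxy, hs⟩
    refine ⟨x - a, y, hy, ?_, hs⟩
    rw [hxy]; push_cast; ring

lemma q2 (ha : a ≠ 0) (hb : b ≠ 0) (hab : a ≠ b) (hr : r ≠ 0) (hd : r ∣ b * (b - a)) :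
    Qt K r (2 * b - a) (b * (b - a)) ↔ E2 K a b r := by
  rw [qt_alg1 hK (A := -b) (B := a - b) (neg_ne_zero.2 hb) (sub_ne_zero.2 hab)
    (fun h => ha (by linarith)) hr (by ring) (by ring) hd]
  constructor
  · rintro ⟨x, y, hy, hxy, hs⟩
    refine ⟨x + b, y, hy, ?_, ?_⟩
    · rw [hxy]; push_cast; ring
    · rwa [add_sub_cancel_right]
  · rintro ⟨x, y, hy, hxy, hs⟩
    refine ⟨x - b, y, hy, ?_, hs⟩
    rw [hxy]; push_cast; ring

lemma qI1 (ha : a ≠ 0) (hb : b ≠ 0) (hab : a ≠ b) (hr : r ≠ 0) (hd : r ∣ b ^ 2) :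
    Qt K r (-2 * (2 * a - b)) (b ^ 2) ↔ I1 K a b r := by
  rw [qt_alg2 hK (A := -a) (B := b - a) (neg_ne_zero.2 ha) (sub_ne_zero.2 hab.symm)
    (fun h => hb (by linarith)) hr (by ring) (by ring) hd]
  constructor
  · rintro ⟨x, y, hy, hxy, hs, hs'⟩
    refine ⟨x + a, y, hy, ?_, ?_, ?_⟩
    · rw [hxy]; push_cast; ring
    · rwa [add_sub_cancel_right]
    · push_cast at hs'
      rwa [sub_neg_eq_add] at hs'
  · rintro ⟨x, y, hy, hxy, hs, hs'⟩
    refine ⟨x - a, y, hy, ?_, hs, ?_⟩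
    · rw [hxy]; push_cast; ring
    · push_cast
      rwa [sub_neg_eq_add, sub_add_cancel]

lemma qI2 (ha : a ≠ 0) (hb : b ≠ 0) (hab : a ≠ b) (hr : r ≠ 0) (hd : r ∣ a ^ 2) :
    Qt K r (-2 * (2 * b - a)) (a ^ 2) ↔ I2 K a b r := by
  rw [qt_alg2 hK (A := -b) (B := a - b) (neg_ne_zero.2 hb) (sub_ne_zero.2 hab)
    (fun h => ha (by linarith)) hr (by ring) (by ring) hd]
  constructor
  · rintro ⟨x, y, hy, hxy, hs, hs'⟩
    refine ⟨x + b, y, hy, ?_, ?_, ?_⟩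
    · rw [hxy]; push_cast; ring
    · rwa [add_sub_cancel_right]
    · push_cast at hs'
      rwa [sub_neg_eq_add] at hs'
  · rintro ⟨x, y, hy, hxy, hs, hs'⟩
    refine ⟨x - b, y, hy, ?_, hs, ?_⟩
    · rw [hxy]; push_cast; ring
    · push_cast
      rwa [sub_neg_eq_add, sub_add_cancel]

end quart

section cls

variable {K : Type} [Field K] [CharZero K] {a b r : ℤ}

lemma onc {x y A B : K} (hy : y ≠ 0) (h : y ^ 2 = x * (x - A) * (x - B)) :
    x ≠ 0 ∧ x - A ≠ 0 ∧ x - B ≠ 0 := by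
  have h1 : x * (x - A) * (x - B) ≠ 0 := by rw [← h]; exact pow_ne_zero 2 hy
  exact ⟨left_ne_zero_of_mul (left_ne_zero_of_mul h1), right_ne_zero_of_mul (left_ne_zero_of_mul h1),
    right_ne_zero_of_mul h1⟩

lemma e0_iff (hrep : ∀ x : K, x ≠ 0 → ∃ e : ℤ, Squarefree e ∧ IsSquare (x * e)) :
    E0 K a b r ↔ ∃ t : ℤ, Squarefree t ∧ Loc K a b r t := by
  constructor
  · rintro ⟨x, y, hy, hxy, hs⟩
    obtain ⟨t, ht, hs'⟩ := hrep (x - a) (onc hy hxy).2.1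
    exact ⟨t, ht, x, y, hy, hxy, hs, hs'⟩
  · rintro ⟨t, ht, x, y, hy, hxy, hs, hs'⟩
    exact ⟨x, y, hy, hxy, hs⟩

lemma e1_iff (hrep : ∀ x : K, x ≠ 0 → ∃ e : ℤ, Squarefree e ∧ IsSquare (x * e)) :
    E1 K a b r ↔ ∃ c : ℤ, Squarefree c ∧ Loc K a b c r := by
  constructor
  · rintro ⟨x, y, hy, hxy, hs⟩
    obtain ⟨t, ht, hs'⟩ := hrep x (onc hy hxy).1
    exact ⟨t, ht, x, y, hy, hxy, hs', hs⟩
  · rintro ⟨t, ht, x, y, hy, hxy, hs, hs'⟩
    exact ⟨x, y, hy, hxy, hs'⟩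

lemma e2_iff (hr : r ≠ 0) (hrep : ∀ x : K, x ≠ 0 → ∃ e : ℤ, Squarefree e ∧ IsSquare (x * e)) :
    E2 K a b r ↔ ∃ c t : ℤ, Squarefree c ∧ Squarefree t ∧ Loc K a b c t ∧
      IsSquare ((c : K) * t * r) := by
  have hr' : (r : K) ≠ 0 := by exact_mod_cast hr
  constructor
  · rintro ⟨x, y, hy, hxy, m, hm⟩
    obtain ⟨k1, k2, k3⟩ := onc hy hxy
    obtain ⟨c, hc, u, hu⟩ := hrep x k1
    obtain ⟨t, ht, v, hv⟩ := hrep (x - a) k2
    refine ⟨c, t, hc, ht, ⟨x, y, hy, hxy, ⟨u, hu⟩, ⟨v, hv⟩⟩, u * v * m / y, ?_⟩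
    have h1 : (u * v * m / y) * (u * v * m / y) = (u * u) * (v * v) * (m * m) / y ^ 2 := by
      field_simp
    rw [h1, ← hu, ← hv, ← hm, hxy]
    field_simp
  · rintro ⟨c, t, hc, ht, ⟨x, y, hy, hxy, ⟨u, hu⟩, ⟨v, hv⟩⟩, m, hm⟩
    obtain ⟨k1, k2, k3⟩ := onc hy hxy
    have hc' : (c : K) ≠ 0 := by exact_mod_cast hc.ne_zero
    have ht' : (t : K) ≠ 0 := by exact_mod_cast ht.ne_zero
    have hu0 : u ≠ 0 := by
      rintro rfl
      rw [mul_zero] at hu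
      exact (mul_ne_zero k1 hc') hu
    have hv0 : v ≠ 0 := by
      rintro rfl
      rw [mul_zero] at hv
      exact (mul_ne_zero k2 ht') hv
    refine ⟨x, y, hy, hxy, y * m / (u * v), ?_⟩
    have h1 : (y * m / (u * v)) * (y * m / (u * v)) = y ^ 2 * (m * m) / ((u * u) * (v * v)) := by
      field_simp
    rw [h1, ← hu, ← hv, ← hm, hxy]
    field_simp

lemma i0_iff : I0 K a b r ↔ Loc K a b 1 r := by
  unfold I0 Loc
  simp only [Int.cast_one, mul_one]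

lemma i1_iff : I1 K a b r ↔ Loc K a b r 1 := by
  unfold I1 Loc
  simp only [Int.cast_one, mul_one]
  constructor
  · rintro ⟨x, y, hy, hxy, h1, h2⟩
    exact ⟨x, y, hy, hxy, h2, h1⟩
  · rintro ⟨x, y, hy, hxy, h1, h2⟩
    exact ⟨x, y, hy, hxy, h2, h1⟩

lemma i2_iff (hr : r ≠ 0) : I2 K a b r ↔ Loc K a b r r := by
  have hr' : (r : K) ≠ 0 := by exact_mod_cast hr
  constructor
  · rintro ⟨x, y, hy, hxy, ⟨m, hm⟩, ⟨u, hu⟩⟩
    obtain ⟨k1, k2, k3⟩ := onc hy hxy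
    have hu0 : u ≠ 0 := by
      rintro rfl
      rw [mul_zero] at hu
      exact (mul_ne_zero k1 hr') hu
    have hm0 : m ≠ 0 := by
      rintro rfl
      rw [mul_zero] at hm
      exact k3 hm
    refine ⟨x, y, hy, hxy, ⟨u, hu⟩, y * r / (u * m), ?_⟩
    have h1 : (y * r / (u * m)) * (y * r / (u * m)) = y ^ 2 * r ^ 2 / ((u * u) * (m * m)) := by
      field_simp
    rw [h1, ← hu, ← hm, hxy]
    field_simp
  · rintro ⟨x, y, hy, hxy, ⟨u, hu⟩, ⟨v, hv⟩⟩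
    obtain ⟨k1, k2, k3⟩ := onc hy hxy
    have hu0 : u ≠ 0 := by
      rintro rfl
      rw [mul_zero] at hu
      exact (mul_ne_zero k1 hr') hu
    have hv0 : v ≠ 0 := by
      rintro rfl
      rw [mul_zero] at hv
      exact (mul_ne_zero k2 hr') hv
    refine ⟨x, y, hy, hxy, ⟨y * r / (u * v), ?_⟩, ⟨u, hu⟩⟩
    have h1 : (y * r / (u * v)) * (y * r / (u * v)) = y ^ 2 * r ^ 2 / ((u * u) * (v * v)) := by
      field_simp
    rw [h1, ← hu, ← hv, hxy]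
    field_simp

end cls

section odd

variable {p : ℕ} [hp : Fact p.Prime] {a b r : ℤ} {L : Bool → Bool → Bool → Bool → Prop}

lemma dvsgn_one (p : ℕ) [hp : Fact p.Prime] : dv p 1 = false ∧ sgn p 1 = false := by
  have h1 : dv p 1 = false := by
    unfold dv
    refine decide_eq_false ?_
    intro h
    exact (Nat.prime_iff_prime_int.1 hp.out).not_isUnit (isUnit_of_dvd_one h)
  refine ⟨h1, ?_⟩
  rw [(dvsgn_false h1).2]
  simp

/-- the explicit conditions at an odd place -/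
lemma odd_all (h2 : p ≠ 2) (hr : Squarefree r)
    (hW : ∀ c t : ℤ, Squarefree c → Squarefree t →
      (Loc ℚ_[p] a b c t ↔ L (dv p c) (dv p t) (sgn p c) (sgn p t))) :
    (E0 ℚ_[p] a b r ↔ ∃ w g, L (dv p r) w (sgn p r) g) ∧
    (I0 ℚ_[p] a b r ↔ L false (dv p r) false (sgn p r)) ∧
    (E1 ℚ_[p] a b r ↔ ∃ v h, L v (dv p r) h (sgn p r)) ∧
    (I1 ℚ_[p] a b r ↔ L (dv p r) false (sgn p r) false) ∧
    (E2 ℚ_[p] a b r ↔ ∃ v w h g, L v w h g ∧ dv p r = xor v w ∧ sgn p r = xor h g) ∧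
    (I2 ℚ_[p] a b r ↔ L (dv p r) (dv p r) (sgn p r) (sgn p r)) := by
  obtain ⟨o1, o2⟩ := dvsgn_one p
  refine ⟨?_, ?_, ?_, ?_, ?_, ?_⟩
  · rw [e0_iff repPad]
    constructor
    · rintro ⟨t, ht, h⟩
      exact ⟨_, _, (hW r t hr ht).1 h⟩
    · rintro ⟨w, g, h⟩
      obtain ⟨t, ht, h3, h4⟩ := exists_dvsgn h2 w g
      exact ⟨t, ht, (hW r t hr ht).2 (by rw [h3, h4]; exact h)⟩
  · rw [i0_iff, hW 1 r squarefree_one hr, o1, o2]
  · rw [e1_iff repPad]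
    constructor
    · rintro ⟨t, ht, h⟩
      exact ⟨_, _, (hW t r ht hr).1 h⟩
    · rintro ⟨w, g, h⟩
      obtain ⟨t, ht, h3, h4⟩ := exists_dvsgn h2 w g
      exact ⟨t, ht, (hW t r ht hr).2 (by rw [h3, h4]; exact h)⟩
  · rw [i1_iff, hW r 1 hr squarefree_one, o1, o2]
  · rw [e2_iff hr.ne_zero repPad]
    have key : ∀ c t : ℤ, Squarefree c → Squarefree t → (IsSquare ((c : ℚ_[p]) * t * r) ↔
        dv p r = xor (dv p c) (dv p t) ∧ sgn p r = xor (sgn p c) (sgn p t)) := by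
      intro c t hc ht
      obtain ⟨s1, s2⟩ := sp_dv hc ht p hp.out
      have hm := sp_sqf hc ht
      obtain ⟨g, hg⟩ := sp_sq (b := t) hc
      have hg' : (c : ℚ_[p]) * t * (sp c t : ℤ) = g * g := by exact_mod_cast hg
      have hc' : (c : ℚ_[p]) ≠ 0 := by exact_mod_cast hc.ne_zero
      have ht' : (t : ℚ_[p]) ≠ 0 := by exact_mod_cast ht.ne_zero
      have hm' : ((sp c t : ℤ) : ℚ_[p]) ≠ 0 := by exact_mod_cast hm.ne_zero
      have hr' : (r : ℚ_[p]) ≠ 0 := by exact_mod_cast hr.ne_zero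
      have hg0 : (g : ℚ_[p]) ≠ 0 := by
        intro h
        rw [h, mul_zero] at hg'
        exact (mul_ne_zero (mul_ne_zero hc' ht') hm') hg'
      have h1 : IsSquare ((c : ℚ_[p]) * t * r) ↔ IsSquare ((r : ℚ_[p]) * (sp c t : ℤ)) := by
        constructor
        · rintro ⟨m, hm1⟩
          refine ⟨g * r / m, ?_⟩
          have hm0 : m ≠ 0 := by
            rintro rfl
            rw [mul_zero] at hm1
            exact (mul_ne_zero (mul_ne_zero hc' ht') hr') hm1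
          have h3 : (g * r / m) * (g * r / m) = (g * g) * r ^ 2 / (m * m) := by
            field_simp
          rw [h3, ← hm1, ← hg']
          field_simp
        · rintro ⟨m, hm1⟩
          refine ⟨g * r / m, ?_⟩
          have hm0 : m ≠ 0 := by
            rintro rfl
            rw [mul_zero] at hm1
            exact (mul_ne_zero hr' hm') hm1
          have h3 : (g * r / m) * (g * r / m) = (g * g) * r ^ 2 / (m * m) := by
            field_simp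
          rw [h3, ← hm1, ← hg']
          field_simp
      rw [h1, sq_iff h2 hr hm, s1, s2]
    constructor
    · rintro ⟨c, t, hc, ht, h, hs⟩
      exact ⟨_, _, _, _, (hW c t hc ht).1 h, (key c t hc ht).1 hs⟩
    · rintro ⟨v, w, h, g, hL, k1, k2⟩
      obtain ⟨c, hc, h3, h4⟩ := exists_dvsgn (p := p) h2 v h
      obtain ⟨t, ht, h5, h6⟩ := exists_dvsgn (p := p) h2 w g
      refine ⟨c, t, hc, ht, (hW c t hc ht).2 (by rw [h3, h4, h5, h6]; exact hL),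
        (key c t hc ht).2 ?_⟩
      rw [h3, h4, h5, h6]
      exact ⟨k1, k2⟩
  · rw [i2_iff hr.ne_zero, hW r r hr hr]

end odd

/-- the conditions at `2` and at the real place -/
lemma spec_all {K : Type} [Field K] [CharZero K] {a b r : ℤ} {T : ℤ → Prop} (hr : Squarefree r)
    (hrep : ∀ x : K, x ≠ 0 → ∃ e : ℤ, Squarefree e ∧ IsSquare (x * e)) (h1 : T 1)
    (hW : ∀ c t : ℤ, Squarefree c → Squarefree t → (Loc K a b c t ↔ T c)) :
    (E0 K a b r ↔ T r) ∧ I0 K a b r ∧ E1 K a b r ∧ (I1 K a b r ↔ T r) ∧ E2 K a b r ∧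
      (I2 K a b r ↔ T r) := by
  refine ⟨?_, ?_, ?_, ?_, ?_, ?_⟩
  · rw [e0_iff hrep]
    constructor
    · rintro ⟨t, ht, h⟩
      exact (hW r t hr ht).1 h
    · intro h
      exact ⟨1, squarefree_one, (hW r 1 hr squarefree_one).2 h⟩
  · rw [i0_iff, hW 1 r squarefree_one hr]
    exact h1
  · rw [e1_iff hrep]
    exact ⟨1, squarefree_one, (hW 1 r squarefree_one hr).2 h1⟩
  · rw [i1_iff, hW r 1 hr squarefree_one]
  · rw [e2_iff hr.ne_zero hrep]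
    refine ⟨1, r, squarefree_one, hr, (hW 1 r squarefree_one hr).2 h1, r, ?_⟩
    push_cast
    ring
  · rw [i2_iff hr.ne_zero, hW r r hr hr]

end Pool.Agent.Y655.ISO
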